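import Pool.Agent.Helper70.MB.Goals

/-!
# Project MB, packet CUTF
-/

open MeasureTheory Set Metric
open scoped ENNReal FourierTransform Topology ContDiff
open Pool.Agent.Results.MP_91ee6f_gt Pool.Agent.Helper70.MB

namespace Pool.Agent.Helper17.MB

/-- Powers of the bracket are bounded by polynomials. -/
theorem br_rpow_le {n : ℕ} (t : ℝ) (a : En n) :
    br a ^ t ≤ (80 : ℝ) ^ ⌈t⌉₊ * (1 + ‖a‖ ^ (2 * ⌈t⌉₊)) := by
  set m := ⌈t⌉₊ with hm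
  have h1 : br a ^ t ≤ br a ^ (m : ℝ) := br_rpow_mono a (Nat.le_ceil t)
  rw [Real.rpow_natCast] at h1
  have hpi : Real.pi < 3.15 := Real.pi_lt_d2
  have hpi0 : 0 < Real.pi := Real.pi_pos
  have hsq : (2 * Real.pi) ^ 2 ≤ 40 := by nlinarith
  have hn : 0 ≤ ‖a‖ := norm_nonneg a
  have h2 : br a ≤ 40 * (1 + ‖a‖ ^ 2) := by
    unfold br
    rw [mul_pow]
    nlinarith [sq_nonneg ‖a‖]
  have h3 : (1 + ‖a‖ ^ 2) ^ m ≤ 2 ^ m * (1 + ‖a‖ ^ (2 * m)) := by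
    rcases le_total ‖a‖ 1 with h | h
    · have h4 : ‖a‖ ^ 2 ≤ 1 := by nlinarith
      calc (1 + ‖a‖ ^ 2) ^ m ≤ 2 ^ m := pow_le_pow_left₀ (by positivity) (by linarith) m
        _ = 2 ^ m * 1 := (mul_one _).symm
        _ ≤ 2 ^ m * (1 + ‖a‖ ^ (2 * m)) := by
          apply mul_le_mul_of_nonneg_left _ (by positivity)
          have : 0 ≤ ‖a‖ ^ (2 * m) := by positivity
          linarith
    · have h4 : 1 ≤ ‖a‖ ^ 2 := by nlinarith
      calc (1 + ‖a‖ ^ 2) ^ m ≤ (2 * ‖a‖ ^ 2) ^ m :=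
            pow_le_pow_left₀ (by positivity) (by linarith) m
        _ = 2 ^ m * ‖a‖ ^ (2 * m) := by rw [mul_pow, ← pow_mul]
        _ ≤ 2 ^ m * (1 + ‖a‖ ^ (2 * m)) := by
          apply mul_le_mul_of_nonneg_left _ (by positivity)
          linarith
  calc br a ^ t ≤ br a ^ m := h1
    _ ≤ (40 * (1 + ‖a‖ ^ 2)) ^ m := pow_le_pow_left₀ (br_pos a).le h2 m
    _ = 40 ^ m * (1 + ‖a‖ ^ 2) ^ m := mul_pow _ _ _
    _ ≤ 40 ^ m * (2 ^ m * (1 + ‖a‖ ^ (2 * m))) :=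
        mul_le_mul_of_nonneg_left h3 (by positivity)
    _ = (80 : ℝ) ^ m * (1 + ‖a‖ ^ (2 * m)) := by
        rw [← mul_assoc, ← mul_pow]
        norm_num

/-- A cutoff as a Schwartz function. -/
noncomputable def toS {n : ℕ} (χ : En n → ℝ) (h : IsCut χ) : SchwartzMap (En n) ℂ :=
  HasCompactSupport.toSchwartzMap (f := fun x => (χ x : ℂ))
    (h.2.comp_left (g := fun r : ℝ => (r : ℂ)) Complex.ofReal_zero)
    (Complex.ofRealCLM.contDiff.comp h.1)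

theorem toS_coe {n : ℕ} (χ : En n → ℝ) (h : IsCut χ) :
    (toS χ h : En n → ℂ) = fun x => (χ x : ℂ) := rfl

theorem hat_eq_toS {n : ℕ} (χ : En n → ℝ) (h : IsCut χ) (a : En n) :
    hat χ a = (𝓕 (toS χ h) : SchwartzMap (En n) ℂ) a := by
  rw [SchwartzMap.fourier_coe, toS_coe]
  rfl

theorem cutf : CUTF := by
  intro n χ h
  set G : SchwartzMap (En n) ℂ := 𝓕 (toS χ h) with hG
  have hhat : hat χ = fun a => G a := by
    funext a
    exact hat_eq_toS χ h a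
  have hcont : Continuous (hat χ) := by
    rw [hhat]
    exact G.continuous
  refine ⟨fun t => ?_, fun t => ?_, fun x => ?_⟩
  · have h1 : Integrable (fun a : En n => (80 : ℝ) ^ ⌈t⌉₊ *
        (‖a‖ ^ 0 * ‖G a‖ + ‖a‖ ^ (2 * ⌈t⌉₊) * ‖G a‖)) :=
      ((G.integrable_pow_mul volume 0).add (G.integrable_pow_mul volume (2 * ⌈t⌉₊))).const_mul _
    refine h1.mono' ((continuous_br_rpow t).mul hcont.norm).aestronglyMeasurable
      (Filter.Eventually.of_forall fun a => ?_)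
    rw [Real.norm_eq_abs, abs_of_nonneg (mul_nonneg (br_rpow_pos a t).le (norm_nonneg _)), hhat]
    have h2 := mul_le_mul_of_nonneg_right (br_rpow_le t a) (norm_nonneg (G a))
    rw [pow_zero, one_mul]
    calc br a ^ t * ‖G a‖ ≤ (80 : ℝ) ^ ⌈t⌉₊ * (1 + ‖a‖ ^ (2 * ⌈t⌉₊)) * ‖G a‖ := h2
      _ = (80 : ℝ) ^ ⌈t⌉₊ * (‖G a‖ + ‖a‖ ^ (2 * ⌈t⌉₊) * ‖G a‖) := by ring
  · obtain ⟨C0, -, hC0⟩ := G.decay 0 0
    obtain ⟨C1, -, hC1⟩ := G.decay (2 * ⌈t⌉₊) 0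
    refine ⟨(80 : ℝ) ^ ⌈t⌉₊ * (C0 + C1), fun a => ?_⟩
    have h2 := mul_le_mul_of_nonneg_right (br_rpow_le t a) (norm_nonneg (G a))
    have h3 := hC0 a
    have h4 := hC1 a
    rw [norm_iteratedFDeriv_zero] at h3 h4
    rw [pow_zero, one_mul] at h3
    rw [hhat]
    calc br a ^ t * ‖G a‖ ≤ (80 : ℝ) ^ ⌈t⌉₊ * (1 + ‖a‖ ^ (2 * ⌈t⌉₊)) * ‖G a‖ := h2
      _ = (80 : ℝ) ^ ⌈t⌉₊ * (‖G a‖ + ‖a‖ ^ (2 * ⌈t⌉₊) * ‖G a‖) := by ring
      _ ≤ (80 : ℝ) ^ ⌈t⌉₊ * (C0 + C1) :=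
          mul_le_mul_of_nonneg_left (add_le_add h3 h4) (by positivity)
  · have h1 : (𝓕⁻ (𝓕 (toS χ h)) : SchwartzMap (En n) ℂ) = toS χ h :=
      FourierPair.fourierInv_fourier_eq _
    have h2 : (χ x : ℂ) = (𝓕⁻ G : SchwartzMap (En n) ℂ) x := by
      rw [hG, h1]
      rfl
    rw [h2, SchwartzMap.fourierInv_coe, Real.fourierInv_eq']
    apply integral_congr_ae
    refine Filter.Eventually.of_forall fun a => ?_
    simp only [smul_eq_mul]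
    rw [hhat, mul_comm]

end Pool.Agent.Helper17.MB
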