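import Pool.Agent.Helper70.MB.Goals

/-!
# Project MB, packet PAIRU
-/

open MeasureTheory Set Metric
open scoped ENNReal FourierTransform Topology ContDiff
open Pool.Agent.Results.MP_91ee6f_gt Pool.Agent.Helper70.MB

namespace Pool.Agent.Helper17.MB

variable {n : ℕ}

/-- The character. -/
noncomputable def ch (x ξ : En n) : ℂ :=
  Complex.exp ((↑(-2 * Real.pi * inner ℝ x ξ) * Complex.I))

lemma norm_ch (x ξ : En n) : ‖ch x ξ‖ = 1 := Complex.norm_exp_ofReal_mul_I _

lemma continuous_ch : Continuous fun p : En n × En n => ch p.1 p.2 := by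
  unfold ch
  fun_prop

lemma ch_add (x y ξ : En n) : ch (x + y) ξ = ch x ξ * ch y ξ := by
  unfold ch
  rw [← Complex.exp_add, inner_add_left]
  congr 1
  push_cast
  ring

lemma conj_ch (x ξ : En n) : (starRingEnd ℂ) (ch x ξ) =
    Complex.exp ((↑(2 * Real.pi * inner ℝ ξ x) * Complex.I)) := by
  unfold ch
  rw [← Complex.exp_conj, real_inner_comm]
  congr 1
  rw [map_mul, Complex.conj_ofReal, Complex.conj_I]
  push_cast
  ring

lemma hat_eq' (f : En n → ℝ) (ξ : En n) : hat f ξ = ∫ x, ch x ξ * (f x : ℂ) := hat_eq f ξ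

/-- The Fourier transform of the measure. -/
noncomputable def TT (τ : Measure (En n)) (ξ : En n) : ℂ := ∫ x, ch x ξ ∂τ

lemma potential_eq (τ : Measure (En n)) (x : En n) :
    potential τ x = ∫ y, Real.exp (-‖x - y‖) ∂τ := by
  unfold potential
  simp_rw [dist_eq_norm]

lemma int_prod (hK : Integrable (fun x : En n => Real.exp (-‖x‖))) (τ : Measure (En n))
    [IsFiniteMeasure τ] :
    Integrable (fun p : En n × En n => Real.exp (-‖p.1 - p.2‖)) (volume.prod τ) := by
  have hm : AEStronglyMeasurable (fun p : En n × En n => Real.exp (-‖p.1 - p.2‖))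
      (volume.prod τ) :=
    (by fun_prop : Continuous fun p : En n × En n => Real.exp (-‖p.1 - p.2‖)).aestronglyMeasurable
  rw [integrable_prod_iff' hm]
  refine ⟨Filter.Eventually.of_forall fun y => ?_, ?_⟩
  · exact hK.comp_sub_right y
  · have h1 : (fun y : En n => ∫ x : En n, ‖Real.exp (-‖x - y‖)‖) = fun _ => CK n := by
      funext y
      unfold CK
      rw [← integral_sub_right_eq_self (fun x : En n => Real.exp (-‖x‖)) y]
      congr 1
      funext x
      rw [Real.norm_eq_abs, abs_of_pos (Real.exp_pos _)]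
    rw [h1]
    exact integrable_const _

lemma continuous_potential (τ : Measure (En n)) [IsFiniteMeasure τ] :
    Continuous (potential τ) := by
  have h : potential τ = fun x => ∫ y, Real.exp (-‖x - y‖) ∂τ := by
    funext x
    exact potential_eq τ x
  rw [h]
  refine continuous_of_dominated (bound := fun _ => 1) (fun x => ?_) (fun x => ?_)
    (integrable_const _) ?_
  · exact (by fun_prop : Continuous fun y : En n => Real.exp (-‖x - y‖)).aestronglyMeasurable
  · refine Filter.Eventually.of_forall fun y => ?_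
    rw [Real.norm_eq_abs, abs_of_pos (Real.exp_pos _)]
    exact Real.exp_le_one_iff.2 (by linarith [norm_nonneg (x - y)])
  · refine Filter.Eventually.of_forall fun y => ?_
    fun_prop

lemma integrable_potential (hK : Integrable (fun x : En n => Real.exp (-‖x‖)))
    (τ : Measure (En n)) [IsFiniteMeasure τ] : Integrable (potential τ) := by
  have h : potential τ = fun x => ∫ y, Real.exp (-‖x - y‖) ∂τ := by
    funext x
    exact potential_eq τ x
  rw [h]
  exact (int_prod hK τ).integral_prod_left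

lemma hat_potential (hK : Integrable (fun x : En n => Real.exp (-‖x‖)))
    (τ : Measure (En n)) [IsFiniteMeasure τ] (ξ : En n) :
    hat (potential τ) ξ = hat (fun x : En n => Real.exp (-‖x‖)) ξ * TT τ ξ := by
  have h1 : hat (potential τ) ξ =
      ∫ x, ∫ y, ch x ξ * (Real.exp (-‖x - y‖) : ℂ) ∂τ := by
    rw [hat_eq']
    congr 1
    funext x
    rw [integral_const_mul, potential_eq]
    congr 1
    exact integral_ofReal.symm
  have hint : Integrable (Function.uncurry fun (x y : En n) =>
      ch x ξ * (Real.exp (-‖x - y‖) : ℂ)) (volume.prod τ) := by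
    refine (int_prod hK τ).mono' ?_ (Filter.Eventually.of_forall fun p => ?_)
    · have : Continuous fun p : En n × En n => ch p.1 ξ * (Real.exp (-‖p.1 - p.2‖) : ℂ) := by
        unfold ch
        fun_prop
      exact this.aestronglyMeasurable
    · simp only [Function.uncurry]
      rw [norm_mul, norm_ch, one_mul, Complex.norm_real, Real.norm_eq_abs,
        abs_of_pos (Real.exp_pos _)]
  rw [h1, integral_integral_swap hint]
  have h2 : ∀ y : En n, ∫ x, ch x ξ * (Real.exp (-‖x - y‖) : ℂ) =
      ch y ξ * hat (fun x : En n => Real.exp (-‖x‖)) ξ := by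
    intro y
    rw [hat_eq', ← integral_const_mul,
      ← integral_add_right_eq_self (fun x : En n => ch x ξ * (Real.exp (-‖x - y‖) : ℂ)) y]
    congr 1
    funext x
    rw [ch_add, add_sub_cancel_right]
    ring
  simp_rw [h2]
  rw [integral_mul_const, mul_comm]
  rfl

lemma norm_TT_le (τ : Measure (En n)) [IsFiniteMeasure τ] (ξ : En n) :
    ‖TT τ ξ‖ ≤ τ.real univ := by
  unfold TT
  refine (norm_integral_le_integral_norm _).trans (le_of_eq ?_)
  simp_rw [norm_ch]
  simp

lemma integrable_hat {h : En n → ℝ} (hi : Integrable (fun ξ : En n => br ξ ^ (-sx n)))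
    (hh : Ad h) : Integrable (hat h) := by
  refine (hi.add hh.2.2).mono' (continuous_hat hh.2.1).aestronglyMeasurable
    (Filter.Eventually.of_forall fun ξ => ?_)
  simp only [Pi.add_apply]
  have h1 : 0 < br ξ ^ (sx n) := br_rpow_pos ξ _
  have h2 : br ξ ^ (-sx n) = (br ξ ^ (sx n))⁻¹ := Real.rpow_neg (br_pos ξ).le _
  rw [h2]
  set p := br ξ ^ (sx n) with hp
  set q := ‖hat h ξ‖ with hq
  have hq0 : 0 ≤ q := norm_nonneg _
  -- q ≤ 1/p + p q^2
  have h3 : 0 ≤ p⁻¹ * (p * q - 1) ^ 2 := by positivity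
  have h4 : p⁻¹ * (p * q - 1) ^ 2 = p * q ^ 2 - 2 * q + p⁻¹ := by
    field_simp
    ring
  linarith

lemma inversion {h : En n → ℝ} (hi : Integrable (fun ξ : En n => br ξ ^ (-sx n)))
    (hh : Ad h) (x : En n) :
    (h x : ℂ) = ∫ ξ, Complex.exp ((↑(2 * Real.pi * inner ℝ ξ x) * Complex.I)) * hat h ξ := by
  have hc : Continuous fun x : En n => (h x : ℂ) := Complex.continuous_ofReal.comp hh.1
  have h1 : 𝓕⁻ (𝓕 fun x : En n => (h x : ℂ)) = fun x : En n => (h x : ℂ) :=
    hc.fourierInv_fourier_eq (integrable_ofReal hh.2.1) (integrable_hat hi hh)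
  have h2 := congrFun h1 x
  rw [← h2, Real.fourierInv_eq']
  rfl

theorem pairu (hFK : FK) : PAIRU := by
  intro n hn τ hτ
  obtain ⟨hK, hCK, -, hi, hhat⟩ := hFK n hn
  have hU : ∀ ξ : En n, hat (potential τ) ξ = ((CK n * br ξ ^ (-sx n) : ℝ) : ℂ) * TT τ ξ := by
    intro ξ
    rw [hat_potential hK, hhat]
  have hAd : Ad (potential τ) := by
    refine ⟨continuous_potential τ, integrable_potential hK τ, ?_⟩
    refine (hi.const_mul ((CK n * τ.real univ) ^ 2)).mono' ?_
      (Filter.Eventually.of_forall fun ξ => ?_)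
    · exact ((continuous_br_rpow _).mul
        ((continuous_hat (integrable_potential hK τ)).norm.pow 2)).aestronglyMeasurable
    · have h1 : 0 < br ξ ^ (sx n) := br_rpow_pos ξ _
      rw [Real.norm_eq_abs, abs_of_nonneg (mul_nonneg h1.le (sq_nonneg _)), hU, norm_mul,
        Complex.norm_real, Real.norm_eq_abs,
        abs_of_pos (mul_pos hCK (br_rpow_pos ξ _)), Real.rpow_neg (br_pos ξ).le]
      have h2 := norm_TT_le τ ξ
      have h3 : 0 ≤ ‖TT τ ξ‖ := norm_nonneg _
      have h4 : ‖TT τ ξ‖ ^ 2 ≤ (τ.real univ) ^ 2 := pow_le_pow_left₀ h3 h2 2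
      calc br ξ ^ sx n * (CK n * (br ξ ^ sx n)⁻¹ * ‖TT τ ξ‖) ^ 2
          = CK n ^ 2 * (br ξ ^ sx n)⁻¹ * ‖TT τ ξ‖ ^ 2 := by
            field_simp
        _ ≤ CK n ^ 2 * (br ξ ^ sx n)⁻¹ * (τ.real univ) ^ 2 :=
            mul_le_mul_of_nonneg_left h4 (by positivity)
        _ = (CK n * τ.real univ) ^ 2 * (br ξ ^ sx n)⁻¹ := by ring
  refine ⟨hAd, fun h hh => ?_⟩
  have hhi := integrable_hat hi hh
  have h1 : ∀ ξ : En n, br ξ ^ sx n * ((starRingEnd ℂ) (hat h ξ) * hat (potential τ) ξ).re =
      CK n * ((starRingEnd ℂ) (hat h ξ) * TT τ ξ).re := by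
    intro ξ
    have h1 : 0 < br ξ ^ (sx n) := br_rpow_pos ξ _
    rw [hU, Real.rpow_neg (br_pos ξ).le, mul_left_comm, Complex.re_ofReal_mul]
    field_simp
  have hTc : Continuous (TT τ : En n → ℂ) := by
    unfold TT
    refine continuous_of_dominated (bound := fun _ => 1) (fun ξ => ?_) (fun ξ => ?_)
      (integrable_const _) ?_
    · exact (by unfold ch; fun_prop : Continuous fun x : En n => ch x ξ).aestronglyMeasurable
    · exact Filter.Eventually.of_forall fun x => (norm_ch x ξ).le
    · refine Filter.Eventually.of_forall fun x => ?_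
      unfold ch
      fun_prop
  have hint0 : Integrable (fun ξ : En n => (starRingEnd ℂ) (hat h ξ) * TT τ ξ) := by
    refine (hhi.norm.mul_const (τ.real univ)).mono' ?_ (Filter.Eventually.of_forall fun ξ => ?_)
    · exact ((Complex.continuous_conj.comp (continuous_hat hh.2.1)).mul hTc).aestronglyMeasurable
    · rw [norm_mul, RCLike.norm_conj]
      exact mul_le_mul_of_nonneg_left (norm_TT_le τ ξ) (norm_nonneg _)
  have h2 : pair h (potential τ) = CK n * (∫ ξ, (starRingEnd ℂ) (hat h ξ) * TT τ ξ).re := by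
    unfold pair
    simp_rw [h1]
    rw [integral_const_mul]
    congr 1
    exact integral_re hint0
  rw [h2]
  congr 1
  -- Fubini
  have h3 : ∀ ξ : En n, (starRingEnd ℂ) (hat h ξ) * TT τ ξ =
      ∫ x, (starRingEnd ℂ) (hat h ξ) * ch x ξ ∂τ := by
    intro ξ
    unfold TT
    rw [integral_const_mul]
  have hint : Integrable (Function.uncurry fun (ξ x : En n) =>
      (starRingEnd ℂ) (hat h ξ) * ch x ξ) (volume.prod τ) := by
    refine (hhi.norm.mul_prod (integrable_const (1 : ℝ))).mono' ?_
      (Filter.Eventually.of_forall fun p => ?_)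
    · have hc1 : Continuous fun p : En n × En n => (starRingEnd ℂ) (hat h p.1) :=
        Complex.continuous_conj.comp ((continuous_hat hh.2.1).comp continuous_fst)
      have hc2 : Continuous fun p : En n × En n => ch p.2 p.1 := by
        unfold ch
        fun_prop
      exact (hc1.mul hc2).aestronglyMeasurable
    · simp only [Function.uncurry]
      rw [norm_mul, RCLike.norm_conj, norm_ch]
  simp_rw [h3]
  rw [integral_integral_swap hint]
  have h4 : ∀ x : En n, ∫ ξ, (starRingEnd ℂ) (hat h ξ) * ch x ξ = (h x : ℂ) := by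
    intro x
    have h5 := inversion hi hh x
    have h6 : (starRingEnd ℂ) (h x : ℂ) = (h x : ℂ) := Complex.conj_ofReal _
    rw [← h6, h5, ← integral_conj]
    congr 1
    funext ξ
    rw [map_mul, ← conj_ch, Complex.conj_conj, mul_comm]
  simp_rw [h4]
  have h7 : ∫ y, (h y : ℂ) ∂τ = ((∫ y, h y ∂τ : ℝ) : ℂ) := integral_ofReal
  rw [h7, Complex.ofReal_re]

end Pool.Agent.Helper17.MB
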